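import Pool.Agent.R789.McKayMed

/-!
# MP_aeb357_pr, Q1: strict monotonicity of the median of a McKay type I law

For every `m > -1/2` and every `φ > 0`, if `X₁, X₂` are independent with law
`Γ(m + 1/2, 1)`, the median of `φ (1 - 1/c) X₁ + φ (1 + 1/c) X₂` is a strictly increasing
function of `c` on `(1, ∞)`.
-/

namespace Pool.Agent.Results.MP_aeb357_pr.MedianStrictMono

open MeasureTheory ProbabilityTheory Set
open scoped ENNReal

/-- The median `inf {x : ℝ | P(X ≤ x) ≥ 1/2}` of a real random variable. -/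
noncomputable def Med {Ω : Type*} [MeasurableSpace Ω] (P : Measure Ω) (X : Ω → ℝ) : ℝ :=
  sInf {x : ℝ | (1 / 2 : ℝ≥0∞) ≤ P {ω | X ω ≤ x}}

/-- **Q1 of MP_aeb357_pr, positive answer.** -/
theorem result (m φ : ℝ) (hm : -(1 / 2) < m) (hφ : 0 < φ)
    {Ω : Type*} [MeasurableSpace Ω] (P : Measure Ω) [IsProbabilityMeasure P]
    (X₁ X₂ : Ω → ℝ) (h₁ : HasLaw X₁ (gammaMeasure (m + 1 / 2) 1) P)
    (h₂ : HasLaw X₂ (gammaMeasure (m + 1 / 2) 1) P) (hind : IndepFun X₁ X₂ P) :
    StrictMonoOn (fun c : ℝ => Med P (fun ω => φ * (1 - 1 / c) * X₁ ω + φ * (1 + 1 / c) * X₂ ω))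
      (Ioi 1) := by
  have hr : 0 < m + 1 / 2 := by linarith
  have hm1 : AEMeasurable X₁ P := h₁.aemeasurable
  have hm2 : AEMeasurable X₂ P := h₂.aemeasurable
  have hmeas : ∀ d : ℝ, AEMeasurable (fun ω => φ * (1 - d) * X₁ ω + φ * (1 + d) * X₂ ω) P :=
    fun d => (hm1.const_mul _).add (hm2.const_mul _)
  set L : ℝ → Measure ℝ := fun d => P.map (fun ω => φ * (1 - d) * X₁ ω + φ * (1 + d) * X₂ ω)
    with hLdef
  have hLprob : ∀ d, IsProbabilityMeasure (L d) := fun d =>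
    Measure.isProbabilityMeasure_map (hmeas d)
  have hL0 : ∀ d x, L d (Iic x) = P {ω | φ * (1 - d) * X₁ ω + φ * (1 + d) * X₂ ω ≤ x} := by
    intro d x
    rw [hLdef]
    simp only
    rw [Measure.map_apply_of_aemeasurable (hmeas d) measurableSet_Iic]
    rfl
  have hL : ∀ d, |d| < 1 → ∀ x, L d (Iic x) =
      ((gammaMeasure (m + 1 / 2) 1).prod (gammaMeasure (m + 1 / 2) 1))
        {p | (1 - d) * p.1 + (1 + d) * p.2 ≤ x / φ} := by
    intro d _ x
    rw [hL0]
    have h3 := (indepFun_iff_map_prod_eq_prod_map_map hm1 hm2).mp hind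
    rw [h₁.map_eq, h₂.map_eq] at h3
    rw [← h3, Measure.map_apply_of_aemeasurable (hm1.prodMk hm2)
      (measurableSet_le (by fun_prop) (by fun_prop))]
    congr 1
    ext ω
    simp only [mem_ofPred_eq, mem_preimage]
    rw [le_div_iff₀ hφ]
    constructor <;> intro h <;> linarith
  intro c₁ hc₁ c₂ hc₂ h12
  have hc1 : (1 : ℝ) < c₁ := hc₁
  have hc2 : (1 : ℝ) < c₂ := hc₂
  have h0 : 0 < 1 / c₂ := by positivity
  have hlt : 1 / c₂ < 1 / c₁ := by
    apply one_div_lt_one_div_of_lt (by linarith) h12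
  have hlt1 : 1 / c₁ < 1 := by
    rw [div_lt_one (by linarith)]; exact hc1
  have := Pool.Agent.R789.McKay.main hr hφ L hLprob hL h0 hlt hlt1
  simpa only [Med, hL0] using this

end Pool.Agent.Results.MP_aeb357_pr.MedianStrictMono
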